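import Pool.Agent.FUE.AllX
import Pool.Agent.FUE.AllQ
import Pool.Agent.FUE.TextEq

/-!
# Compactness of Fueter sections of the Atiyah-Hitchin bundle (MP_9c5d3f_gt)

The definitions are in `Pool/Agent/FUE/Defs.lean` (profile, `AH`, `FueterPt`) and
`Pool/Agent/FUE/Text.lean` (frames, Ricci curvature, Fueter sections, `C^∞` convergence).
-/

set_option autoImplicit false

open scoped Manifold ContDiff Matrix

namespace Pool.Agent.Results.MP_9c5d3f_gt.FueterCompactness

open Pool.Agent.FUE

/-- (0) the Atiyah-Hitchin metric exists in the form used here; (A) for every closed 3-manifold with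
frame the Fueter sections in a bounded region are sequentially compact in `C^∞`; (B) if the operator
`-Δ + ric_min` is positive, all Fueter sections lie in a bounded region, and the moduli space is
compact; (B') this is the case if the Ricci curvature is positive. -/
theorem result :
    Nonempty Profile ∧
    ∀ (pr : Profile) (M : Type) [TopologicalSpace M] [ChartedSpace E3 M] [IsManifold (𝓡 3) ∞ M]
      [CompactSpace M] [T2Space M] (F : T.Frame E3 M),
      (∀ S : ℝ, F.SeqCompact pr {u | ∀ x, (toM (u x)).trace ≤ S}) ∧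
      (F.SpecPos → ∃ S : ℝ, ∀ u : M → V9, F.IsFueter pr u → ∀ x, (toM (u x)).trace ≤ S) ∧
      (F.SpecPos → F.SeqCompact pr Set.univ) ∧
      (F.RicPos → F.SpecPos) := by
  refine ⟨all_Q6, fun pr M _ _ _ _ _ F => ?_⟩
  have hA : ∀ S : ℝ, F.SeqCompact pr {u | ∀ x, (toM (u x)).trace ≤ S} := by
    intro S u hu
    obtain ⟨φ, v, h1, h2, h3⟩ := partA all_Cpt pr M F.toF S u
      (fun n => (T.fueter_iff F pr (u n)).1 (hu n).1) (fun n x => (hu n).2 x)
    exact ⟨φ, v, h1, (T.fueter_iff F pr v).2 h2, (T.cinf_iff F _ v).2 h3⟩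
  have hB : F.SpecPos → ∃ S : ℝ, ∀ u : M → V9, F.IsFueter pr u → ∀ x, (toM (u x)).trace ≤ S := by
    intro h
    obtain ⟨S, hS⟩ := all_Y2 pr M F.toF h
    exact ⟨S, fun u hu => hS u ((T.fueter_iff F pr u).1 hu)⟩
  refine ⟨hA, hB, ?_, ?_⟩
  · intro h u hu
    obtain ⟨S, hS⟩ := hB h
    exact hA S u fun n => ⟨(hu n).1, hS (u n) (hu n).1⟩
  · intro h
    refine ⟨fun _ => 1, contMDiff_const, fun _ => one_pos, fun x v hv => ?_⟩
    have h1 : ∀ (a : ℝ) (j : Fin 3), F.D j (fun _ : M => a) = fun _ => 0 := by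
      intro a j
      funext y
      show mfderiv (𝓡 3) 𝓘(ℝ, ℝ) (fun _ : M => a) y (F.e j y) = 0
      rw [mfderiv_const]
      rfl
    have h3 : F.lap (fun _ => 1) x = 0 := by
      unfold T.Frame.lap
      simp only [h1]
      simp
    rw [h3, zero_mul, mul_one]
    exact h x v hv

end Pool.Agent.Results.MP_9c5d3f_gt.FueterCompactness
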