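import Pool.Agent.FUE.AllC
import Pool.Agent.FUE.C8
import Pool.Agent.FUE.Text2
import Pool.Agent.FUE.TextEq

/-!
# The Fueter sections over round three-manifolds (MP_9c5d3f_gt)

The definitions are in `Pool/Agent/FUE/Defs.lean` (profile, `AH`, `FueterPt`),
`Pool/Agent/FUE/Text.lean` (frames, Fueter sections) and `Pool/Agent/FUE/Text2.lean` (round frames,
the three-sphere).
-/

set_option autoImplicit false

open scoped Manifold ContDiff Matrix

namespace Pool.Agent.Results.MP_9c5d3f_gt.HopfLineFields

open Pool.Agent.FUE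

/-- (1) closed connected 3-manifolds with a round frame: the Fueter sections are the bolt valued
sections which are parallel for one of the two flat connections `D`, `D + 2 conn`; (2) the unit
three-sphere with its left invariant orthonormal frame is such a manifold; (3) its Fueter sections
are the two families of Hopf line fields `x ↦ ℝ x p`, `x ↦ ℝ p x`. -/
theorem result :
    (∀ (pr : Profile) (M : Type) [TopologicalSpace M] [ChartedSpace E3 M] [IsManifold (𝓡 3) ∞ M]
      [CompactSpace M] [PreconnectedSpace M] (F : T.Frame E3 M), F.Round →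
        ∀ u : M → V9, F.IsFueter pr u ↔ F.IsHopf u) ∧
    (∀ (x : T.E4) (i j : Fin 3), inner ℝ (T.Jq i x) (T.Jq j x) = if i = j then ‖x‖ ^ 2 else 0) ∧
    (∃ F : T.Frame E3 T.S3, F.Round ∧ F.LeftInv T.S3.incl) ∧
    ∀ (pr : Profile) (F : T.Frame E3 T.S3), F.Round → F.LeftInv T.S3.incl →
      ∀ u : T.S3 → V9, F.IsFueter pr u ↔ T.LineL u ∨ T.LineR T.S3.incl u := by
  refine ⟨?_, ?_, ?_, ?_⟩
  · intro pr M _ _ _ _ _ F hr u
    have hr' : F.toF.Round := hr
    have key : F.ParR u ↔ ∀ i x, toM (F.D i u x) =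
        (-2 : ℝ) • (F.conn i x * toM (u x) - toM (u x) * F.conn i x) := by
      unfold T.Frame.ParR
      refine forall_congr' fun i => forall_congr' fun x => ?_
      rw [neg_smul, ← add_eq_zero_iff_eq_neg]
    rw [T.fueter_iff]
    constructor
    · intro h
      refine ⟨h.smooth, ?_, ?_⟩
      · intro x
        refine ⟨h.mem x, ?_⟩
        have h2 := all_C2 pr M F.toF hr' u h x
        unfold tt at h2
        linarith
      · rcases all_C6 pr M F.toF hr' u h with h | h
        · exact Or.inl h
        · exact Or.inr (key.2 h)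
    · rintro ⟨h1, h2, h3⟩
      refine all_C7 pr M F.toF hr' u h1 h2 ?_
      rcases h3 with h | h
      · exact Or.inl h
      · exact Or.inr (key.1 h)
  · exact thm_S3.1
  · obtain ⟨h1, F, h2, h3⟩ := thm_S3
    exact ⟨⟨F.e, F.smooth_e, F.indep, F.c, F.smooth_c, F.bracket⟩, h2, h3⟩
  · intro pr F hr hl u
    rw [T.fueter_iff]
    have h := (thm_C8 thm_C1 all_C2 all_C6 all_C7) pr F.toF hr hl u
    refine h.trans ?_
    constructor
    · rintro ⟨p, hp, h | h⟩
      · exact Or.inl ⟨p, hp, h⟩
      · exact Or.inr ⟨p, hp, h⟩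
    · rintro (⟨p, hp, h⟩ | ⟨p, hp, h⟩)
      · exact ⟨p, hp, Or.inl h⟩
      · exact ⟨p, hp, Or.inr h⟩

end Pool.Agent.Results.MP_9c5d3f_gt.HopfLineFields
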